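import Pool.Agent.W716.FV.StmB
import Pool.Agent.H241R3.FV.TExt

/-!
# FV-UF: the functions `UU`
-/

set_option autoImplicit false

open MeasureTheory InnerProductGeometry

namespace Pool.Agent.W18.FV.UF

open Pool.Agent.W716.FV
open Pool.Agent.H241R3.FV (Sph ext RChart Fill Triang)

theorem key (a b φ φ' α : ℝ) (ha : 0 ≤ a) (hb : 0 ≤ b) (hα : α ≤ Real.pi) (h : |φ - φ'| ≤ α) :
    (a * Real.cos φ - b * Real.cos φ') ^ 2 ≤ a ^ 2 + b ^ 2 - 2 * (a * b * Real.cos α) := by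
  have h1 : Real.cos α ≤ Real.cos (φ - φ') := by
    rw [← Real.cos_abs (φ - φ')]
    exact Real.cos_le_cos_of_nonneg_of_le_pi (abs_nonneg _) hα h
  rw [Real.cos_sub] at h1
  have h2 := Real.sin_sq_add_cos_sq φ
  have h3 := Real.sin_sq_add_cos_sq φ'
  have h4 := mul_le_mul_of_nonneg_left h1 (mul_nonneg ha hb)
  have h5 := sq_nonneg (a * Real.sin φ - b * Real.sin φ')
  have h6 : Real.sin φ ^ 2 = 1 - Real.cos φ ^ 2 := by linarith
  have h7 : Real.sin φ' ^ 2 = 1 - Real.cos φ' ^ 2 := by linarith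
  have h8 : (a * Real.sin φ - b * Real.sin φ') ^ 2 = a ^ 2 * (1 - Real.cos φ ^ 2) +
      b ^ 2 * (1 - Real.cos φ' ^ 2) - 2 * (a * b * (Real.sin φ * Real.sin φ')) := by
    rw [← h6, ← h7]; ring
  nlinarith

variable {n : ℕ} {M : Type} [MetricSpace M]

theorem UU_zero (bd : Sph n → M) (q : M) : UU bd q 0 = 0 := by
  unfold UU
  simp

theorem UU_ne (bd : Sph n → M) (q : M) (G : E n) (h : G ≠ 0) :
    UU bd q G = ‖G‖ * Real.cos (ext bd (dir G h) q) := by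
  unfold UU
  rw [dif_neg h]

theorem abs_UU_le (bd : Sph n → M) (q : M) (G : E n) : |UU bd q G| ≤ ‖G‖ := by
  by_cases h : G = 0
  · rw [h, UU_zero]; simp
  · rw [UU_ne bd q G h, abs_mul, abs_norm]
    have := Real.abs_cos_le_one (ext bd (dir G h) q)
    calc ‖G‖ * |Real.cos (ext bd (dir G h) q)| ≤ ‖G‖ * 1 :=
          mul_le_mul_of_nonneg_left this (norm_nonneg _)
      _ = ‖G‖ := mul_one _

theorem angle_dir (G G' : E n) (h : G ≠ 0) (h' : G' ≠ 0) :
    angle (dir G h : E n) (dir G' h' : E n) = angle G G' := by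
  show angle (‖G‖⁻¹ • G) (‖G'‖⁻¹ • G') = _
  rw [angle_smul_left_of_pos _ _ (inv_pos.2 (norm_pos_iff.2 h)),
    angle_smul_right_of_pos _ _ (inv_pos.2 (norm_pos_iff.2 h'))]

theorem UU_lip (hn : 0 < n) (bd : Sph n → M)
    (hns : ∀ x y : Sph n, angle (x : E n) (y : E n) ≤ dist (bd x) (bd y)) (q : M) (G G' : E n) :
    |UU bd q G - UU bd q G'| ≤ ‖G - G'‖ := by
  by_cases h : G = 0
  · subst h
    rw [UU_zero, zero_sub, zero_sub, abs_neg, norm_neg]
    exact abs_UU_le bd q G'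
  by_cases h' : G' = 0
  · subst h'
    rw [UU_zero, sub_zero, sub_zero]
    exact abs_UU_le bd q G
  have hE := (Pool.Agent.H241R3.FV.taskExt n hn M bd hns).2.1 (dir G h) (dir G' h') q
  rw [angle_dir] at hE
  have h1 := key ‖G‖ ‖G'‖ _ _ _ (norm_nonneg _) (norm_nonneg _) (angle_le_pi G G') hE
  rw [← UU_ne, ← UU_ne] at h1
  have h2 : ‖G - G'‖ ^ 2 = ‖G‖ ^ 2 + ‖G'‖ ^ 2 - 2 * (‖G‖ * ‖G'‖ * Real.cos (angle G G')) := by
    rw [norm_sub_sq_real, ← cos_angle_mul_norm_mul_norm]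
    ring
  rw [← h2] at h1
  exact abs_le_of_sq_le_sq h1 (norm_nonneg _)

theorem dir_smul (t : ℝ) (ht : 0 < t) (G : E n) (h : G ≠ 0) (h' : t • G ≠ 0) :
    dir (t • G) h' = dir G h := by
  apply Subtype.ext
  show ‖t • G‖⁻¹ • (t • G) = ‖G‖⁻¹ • G
  rw [norm_smul, Real.norm_eq_abs, abs_of_pos ht, smul_smul]
  congr 1
  have : ‖G‖ ≠ 0 := norm_ne_zero_iff.2 h
  field_simp

theorem UU_hom (bd : Sph n → M) (q : M) (t : ℝ) (G : E n) (ht : 0 ≤ t) :
    UU bd q (t • G) = t * UU bd q G := by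
  rcases ht.eq_or_lt with ht | ht
  · rw [← ht, zero_smul, UU_zero, zero_mul]
  by_cases h : G = 0
  · rw [h, smul_zero, UU_zero, mul_zero]
  have h' : t • G ≠ 0 := smul_ne_zero ht.ne' h
  rw [UU_ne bd q _ h', UU_ne bd q G h, dir_smul t ht G h h', norm_smul, Real.norm_eq_abs,
    abs_of_pos ht]
  ring

theorem UU_bd (hn : 0 < n) (bd : Sph n → M)
    (hns : ∀ x y : Sph n, angle (x : E n) (y : E n) ≤ dist (bd x) (bd y)) (G : E n) (x : Sph n) :
    UU bd (bd x) G = inner ℝ G (x : E n) := by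
  by_cases h : G = 0
  · rw [h, UU_zero, inner_zero_left]
  rw [UU_ne bd _ G h, (Pool.Agent.H241R3.FV.taskExt n hn M bd hns).2.2]
  have h1 : angle (dir G h : E n) (x : E n) = angle G (x : E n) := by
    show angle (‖G‖⁻¹ • G) (x : E n) = _
    rw [angle_smul_left_of_pos _ _ (inv_pos.2 (norm_pos_iff.2 h))]
  rw [h1]
  have h2 := cos_angle_mul_norm_mul_norm G (x : E n)
  have h3 : ‖(x : E n)‖ = 1 := mem_sphere_zero_iff_norm.1 x.2
  rw [h3, mul_one] at h2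
  rw [mul_comm]
  exact h2

theorem abs_cos_sub (a b : ℝ) : |Real.cos a - Real.cos b| ≤ |a - b| := by
  rw [Real.cos_sub_cos]
  rw [abs_mul, abs_mul, abs_neg]
  have h1 : |Real.sin ((a + b) / 2)| ≤ 1 := Real.abs_sin_le_one _
  have h2 : |Real.sin ((a - b) / 2)| ≤ |(a - b) / 2| := Real.abs_sin_le_abs
  have h3 : |(a - b) / 2| = |a - b| / 2 := by rw [abs_div]; simp
  rw [h3] at h2
  have h4 : |(2 : ℝ)| = 2 := by norm_num
  rw [h4]
  have h5 := abs_nonneg (Real.sin ((a - b) / 2))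
  nlinarith [abs_nonneg (Real.sin ((a + b) / 2))]

theorem UU_q (hn : 0 < n) (bd : Sph n → M)
    (hns : ∀ x y : Sph n, angle (x : E n) (y : E n) ≤ dist (bd x) (bd y)) (q q' : M) (G : E n) :
    |UU bd q G - UU bd q' G| ≤ ‖G‖ * dist q q' := by
  by_cases h : G = 0
  · rw [h, UU_zero, UU_zero]; simp
  rw [UU_ne bd q G h, UU_ne bd q' G h, ← mul_sub, abs_mul, abs_norm]
  apply mul_le_mul_of_nonneg_left _ (norm_nonneg _)
  exact (abs_cos_sub _ _).trans ((Pool.Agent.H241R3.FV.taskExt n hn M bd hns).1 _ _ _)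

theorem UU_q2 (hn : 0 < n) (bd : Sph n → M)
    (hns : ∀ x y : Sph n, angle (x : E n) (y : E n) ≤ dist (bd x) (bd y)) (q q' : M) (G : E n) :
    |UU bd q' G - UU bd q G| ≤
      √(‖G‖ ^ 2 - UU bd q G ^ 2) * dist q' q + ‖G‖ * dist q' q ^ 2 := by
  by_cases h : G = 0
  · rw [h, UU_zero, UU_zero]; simp
  rw [UU_ne bd q G h, UU_ne bd q' G h]
  have hd := (Pool.Agent.H241R3.FV.taskExt n hn M bd hns).1 (dir G h) q' q
  set φ := ext bd (dir G h) q
  set φ' := ext bd (dir G h) q'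
  set δ := φ' - φ with hδ
  have hφ' : φ' = φ + δ := by rw [hδ]; ring
  have hs : √(‖G‖ ^ 2 - (‖G‖ * Real.cos φ) ^ 2) = ‖G‖ * |Real.sin φ| := by
    have : ‖G‖ ^ 2 - (‖G‖ * Real.cos φ) ^ 2 = (‖G‖ * |Real.sin φ|) ^ 2 := by
      rw [mul_pow, mul_pow, sq_abs, Real.sin_sq]
      ring
    rw [this, Real.sqrt_sq (mul_nonneg (norm_nonneg _) (abs_nonneg _))]
  rw [hs, hφ', Real.cos_add]
  have h1 : ‖G‖ * (Real.cos φ * Real.cos δ - Real.sin φ * Real.sin δ) - ‖G‖ * Real.cos φ =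
      ‖G‖ * (Real.cos φ * (Real.cos δ - 1) - Real.sin φ * Real.sin δ) := by ring
  rw [h1, abs_mul, abs_norm, mul_assoc, ← mul_add]
  apply mul_le_mul_of_nonneg_left _ (norm_nonneg _)
  have h2 : |Real.cos δ - 1| ≤ δ ^ 2 := by
    have h3 := Real.one_sub_sq_div_two_le_cos (x := δ)
    have h4 := Real.cos_le_one δ
    rw [abs_le]
    constructor <;> nlinarith [sq_nonneg δ]
  have h3 : |Real.sin δ| ≤ |δ| := Real.abs_sin_le_abs
  have h4 : δ ^ 2 ≤ dist q' q ^ 2 := by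
    rw [← sq_abs]
    exact pow_le_pow_left₀ (abs_nonneg _) hd 2
  calc |Real.cos φ * (Real.cos δ - 1) - Real.sin φ * Real.sin δ|
      ≤ |Real.cos φ * (Real.cos δ - 1)| + |Real.sin φ * Real.sin δ| := abs_sub _ _
    _ = |Real.cos φ| * |Real.cos δ - 1| + |Real.sin φ| * |Real.sin δ| := by
        rw [abs_mul, abs_mul]
    _ ≤ 1 * dist q' q ^ 2 + |Real.sin φ| * dist q' q := by
        apply add_le_add
        · exact mul_le_mul (Real.abs_cos_le_one _) (h2.trans h4) (abs_nonneg _) zero_le_one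
        · exact mul_le_mul_of_nonneg_left (h3.trans hd) (abs_nonneg _)
    _ = |Real.sin φ| * dist q' q + dist q' q ^ 2 := by ring

theorem main : UFacts := by
  intro n hn M _ bd hns
  refine ⟨fun q => ⟨fun x y => ?_, fun t x ht => UU_hom bd q t x ht⟩, UU_bd hn bd hns,
    UU_q hn bd hns, ?_, UU_q2 hn bd hns⟩
  · rw [one_mul]
    exact UU_lip hn bd hns q x y
  · intro q G
    have := abs_UU_le bd q G
    rw [← sq_abs]
    exact pow_le_pow_left₀ (abs_nonneg _) this 2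

end Pool.Agent.W18.FV.UF
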